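import Pool.Agent.Q62.CC.Stn
import Pool.Agent.Q176.CC.Rtf

/-!
# Project CC: job CC-43 (circular flows of the whole shell are not stopped)
-/

set_option autoImplicit false

open Set Filter Topology MeasureTheory
open scoped ENNReal ContDiff

namespace Pool.Agent.Q186.CC

open Pool.Agent.Q62.CC
open Pool.Agent.Q61.NC (Sp StopsIn)

/-- the point at distance `√s` from the axis -/
noncomputable def pt {d : ℕ} (j : Fin d) (s : ℝ) : Sp d := EuclideanSpace.single j (√s)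

lemma N2_pt {d : ℕ} {j k : Fin d} (hjk : j ≠ k) {s : ℝ} (hs : 0 ≤ s) : N2 j k (pt j s) = s := by
  unfold N2 pt
  have h1 : (EuclideanSpace.single j (√s) : EuclideanSpace ℝ (Fin d)) j = √s := by simp
  have h2 : (EuclideanSpace.single j (√s) : EuclideanSpace ℝ (Fin d)) k = 0 := by
    simp [hjk.symm]
  rw [h1, h2, Real.sq_sqrt hs]
  ring

lemma vel_pt {d : ℕ} {j k : Fin d} (hjk : j ≠ k) {s : ℝ} (hs : 0 < s) (Ω : ℝ → ℝ → ℝ)
    (A : Fin d → ℝ → ℝ → ℝ) (t : ℝ) (h : vel j k Ω A t (pt j s) = 0) : Ω t s = 0 := by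
  have h1 : (vel j k Ω A t (pt j s)) k = 0 := by
    rw [h]
    rfl
  unfold vel at h1
  simp only [if_neg hjk.symm, if_true] at h1
  rw [N2_pt hjk hs.le] at h1
  have h2 : (pt j s : Sp d) j = √s := by
    unfold pt
    simp
  rw [h2] at h1
  rcases mul_eq_zero.mp h1 with h3 | h3
  · exact absurd h3 (Real.sqrt_pos.mpr hs).ne'
  · exact h3

/-- Job CC-43. -/
theorem t_NEG (hp1 : S_REG) (hp2 : S_CIR) (hp3 : S_NEV) (hp4 : S_ZER) : S_NEG := by
  intro d j k a b T hjk ha hab f h Ω A p hf hS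
  have hb : 0 < b := ha.trans hab
  have ha2 : 0 < a ^ 2 := by positivity
  obtain ⟨N, hNo, hGN, hsm, -⟩ := hS.smooth
  obtain ⟨N₀, N₁, Ωt, Ω1, Ω2, hN0, hN0a, hbN1, hΩs, hdt, hdx, hdxx⟩ :=
    hp1 d j k a b hjk ha hab N Ω A hNo hGN hsm
  have hheat := hp2 d j k a b T hjk ha hab _ Ω A p hS N₀ N₁ Ωt Ω1 Ω2 hN0 hN0a hbN1 hdt hdx hdxx
  have hin : ∀ x ∈ Icc (a ^ 2 / 2) (b ^ 2 / 2), 2 * x ∈ Icc (a ^ 2) (b ^ 2) := fun x hx =>
    ⟨by linarith [hx.1], by linarith [hx.2]⟩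
  have hin2 : ∀ x ∈ Icc (a ^ 2 / 2) (b ^ 2 / 2), 2 * x ∈ Ioo N₀ N₁ := fun x hx =>
    ⟨lt_of_lt_of_le hN0a (hin x hx).1, lt_of_le_of_lt (hin x hx).2 hbN1⟩
  have hpos : ∀ x ∈ Icc (a ^ 2 / 2) (b ^ 2 / 2), 0 < x := fun x hx =>
    lt_of_lt_of_le (by positivity) hx.1
  have hshell : ∀ s ∈ Icc (a ^ 2) (b ^ 2), pt j s ∈ shell j k a b := by
    intro s hs
    have hs0 : 0 ≤ s := ha2.le.trans hs.1
    show a ^ 2 ≤ N2 j k (pt j s) ∧ N2 j k (pt j s) ≤ b ^ 2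
    rw [N2_pt hjk hs0]
    exact hs
  have hwall : ∀ t, 0 < t → ∀ s, (s = a ^ 2 ∨ s = b ^ 2) → Ω t s = 0 := by
    intro t ht s hs
    have hs0 : 0 < s := by
      rcases hs with rfl | rfl <;> positivity
    apply vel_pt hjk hs0 Ω A t
    apply hS.wall t ht
    show N2 j k (pt j s) = a ^ 2 ∨ N2 j k (pt j s) = b ^ 2
    rw [N2_pt hjk hs0.le]
    exact hs
  have hrest : ∀ t, T ≤ t → ∀ s ∈ Icc (a ^ 2) (b ^ 2), Ω t s = 0 := by
    intro t ht s hs
    exact vel_pt hjk (lt_of_lt_of_le ha2 hs.1) Ω A t (hS.rest t ht _ (hshell s hs))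
  -- continuity of the time derivative
  have hopen : IsOpen (Ioi (0 : ℝ) ×ˢ Ioo N₀ N₁) := isOpen_Ioi.prod isOpen_Ioo
  have hΩtc : ContinuousOn (fun z : ℝ × ℝ => Ωt z.1 z.2) (Ioi 0 ×ˢ Ioo N₀ N₁) := by
    have h1 : ContinuousOn (fun z : ℝ × ℝ => fderiv ℝ (fun z : ℝ × ℝ => Ω z.1 z.2) z)
        (Ioi 0 ×ˢ Ioo N₀ N₁) := hΩs.continuousOn_fderiv_of_isOpen hopen (by simp)
    have h2 : ContinuousOn (fun z : ℝ × ℝ => fderiv ℝ (fun z : ℝ × ℝ => Ω z.1 z.2) z (1, 0))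
        (Ioi 0 ×ˢ Ioo N₀ N₁) := h1.clm_apply continuousOn_const
    refine h2.congr ?_
    rintro ⟨t, s⟩ ⟨ht, hs⟩
    have hd : HasFDerivAt (fun z : ℝ × ℝ => Ω z.1 z.2)
        (fderiv ℝ (fun z : ℝ × ℝ => Ω z.1 z.2) (t, s)) (t, s) :=
      ((hΩs.differentiableOn (by simp)).differentiableAt (hopen.mem_nhds ⟨ht, hs⟩)).hasFDerivAt
    have hc : HasDerivAt (fun r : ℝ => ((r, s) : ℝ × ℝ)) (1, 0) t :=
      (hasDerivAt_id t).prodMk (hasDerivAt_const t s)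
    have h3 : HasDerivAt (fun r : ℝ => Ω r s)
        (fderiv ℝ (fun z : ℝ × ℝ => Ω z.1 z.2) (t, s) (1, 0)) t := by
      have h4 := HasFDerivAt.comp_hasDerivAt (l := fun z : ℝ × ℝ => Ω z.1 z.2)
        (f := fun r : ℝ => ((r, s) : ℝ × ℝ)) t hd hc
      exact h4
    exact (hdt t s ht hs).unique h3
  have hmap : ContinuousOn (fun z : ℝ × ℝ => ((z.1, 2 * z.2) : ℝ × ℝ))
      (Ioi 0 ×ˢ Icc (a ^ 2 / 2) (b ^ 2 / 2)) := by fun_prop
  have hmaps : MapsTo (fun z : ℝ × ℝ => ((z.1, 2 * z.2) : ℝ × ℝ))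
      (Ioi 0 ×ˢ Icc (a ^ 2 / 2) (b ^ 2 / 2)) (Ioi 0 ×ˢ Ioo N₀ N₁) := by
    rintro ⟨t, x⟩ ⟨ht, hx⟩
    exact ⟨ht, hin2 x hx⟩
  have hzero := hp3 Pool.Agent.Q176.CC.mr _ _ _ _ _ _ (Pool.Agent.Q176.CC.wt_rot ha hab) (max T 1)
    (fun t x => 2 * x * Ω t (2 * x)) (fun t x => 2 * x * Ωt t (2 * x))
    (fun t x => 2 * Ω t (2 * x) + 4 * x * Ω1 t (2 * x)) (lt_of_lt_of_le one_pos (le_max_right _ _))
    (fun t ht x hx => (hdt t (2 * x) ht (hin2 x hx)).const_mul (2 * x))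
    ((continuousOn_const.mul continuousOn_snd).mul (hΩtc.comp hmap hmaps))
    ((continuousOn_const.mul continuousOn_snd).mul (hΩs.continuousOn.comp hmap hmaps))
    (by
      intro t ht x hx
      apply HasDerivAt.hasDerivWithinAt
      have h4 : HasDerivAt (fun y : ℝ => 2 * y) 2 x := by
        simpa using (hasDerivAt_id x).const_mul (2 : ℝ)
      have h5 : HasDerivAt (fun y : ℝ => Ω t (2 * y)) (Ω1 t (2 * x) * 2) x :=
        (hdx t (2 * x) ht (hin2 x hx)).comp x h4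
      have h6 := h4.mul h5
      have e : 2 * Ω t (2 * x) + 2 * x * (Ω1 t (2 * x) * 2) =
          2 * Ω t (2 * x) + 4 * x * Ω1 t (2 * x) := by ring
      rw [← e]
      exact h6)
    (by
      intro t ht x hx
      apply HasDerivAt.hasDerivWithinAt
      have hx0 := hpos x hx
      have h4 : HasDerivAt (fun y : ℝ => 2 * y) 2 x := by
        simpa using (hasDerivAt_id x).const_mul (2 : ℝ)
      have h4' : HasDerivAt (fun y : ℝ => 4 * y) 4 x := by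
        simpa using (hasDerivAt_id x).const_mul (4 : ℝ)
      have h5 : HasDerivAt (fun y : ℝ => Ω t (2 * y)) (Ω1 t (2 * x) * 2) x :=
        (hdx t (2 * x) ht (hin2 x hx)).comp x h4
      have h6 : HasDerivAt (fun y : ℝ => Ω1 t (2 * y)) (Ω2 t (2 * x) * 2) x :=
        (hdxx t (2 * x) ht (hin2 x hx)).comp x h4
      have h7 := (h5.const_mul 2).add (h4'.mul h6)
      have e : 2 * (Ω1 t (2 * x) * 2) + (4 * Ω1 t (2 * x) + 4 * x * (Ω2 t (2 * x) * 2)) =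
          Pool.Agent.Q176.CC.mr x * (2 * x * Ωt t (2 * x)) := by
        rw [hheat t ht (2 * x) (hin x hx)]
        unfold Pool.Agent.Q176.CC.mr
        field_simp
        ring
      rw [← e]
      exact h7)
    (by
      intro t ht
      have e1 : 2 * (a ^ 2 / 2) = a ^ 2 := by ring
      have e2 : 2 * (b ^ 2 / 2) = b ^ 2 := by ring
      refine ⟨?_, ?_⟩
      · simp only [e1, hwall t ht _ (Or.inl rfl), mul_zero]
      · simp only [e2, hwall t ht _ (Or.inr rfl), mul_zero])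
    (by
      intro t ht x hx
      simp only [hrest t (le_trans (le_max_left _ _) ht) _ (hin x hx), mul_zero])
  refine hp4 d j k a b T hjk ha hab f h Ω A p hf hS ?_
  intro t ht s hs
  have hx : s / 2 ∈ Icc (a ^ 2 / 2) (b ^ 2 / 2) := ⟨by linarith [hs.1], by linarith [hs.2]⟩
  have h8 := hzero t ht (s / 2) hx
  have e3 : 2 * (s / 2) = s := by ring
  simp only [e3] at h8
  rcases mul_eq_zero.mp h8 with h9 | h9
  · exact absurd h9 (lt_of_lt_of_le ha2 hs.1).ne'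
  · exact h9

end Pool.Agent.Q186.CC
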