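import Pool.Agent.Q62.CC.Stn

/-!
# Project CC: job CC-44 (null sets and the square)
-/

set_option autoImplicit false

open Set Filter Topology MeasureTheory
open scoped ENNReal ContDiff

namespace Pool.Agent.Q186.CC

open Pool.Agent.Q62.CC

/-- Job CC-44. -/
theorem t_NUL : S_NUL := by
  intro a b ha hab f
  have hb : 0 < b := ha.trans hab
  rw [Filter.EventuallyEq, Filter.EventuallyEq, ae_restrict_iff' measurableSet_Icc,
    ae_restrict_iff' measurableSet_Icc, ae_iff, ae_iff]
  have hmem : ∀ s ∈ Icc (a ^ 2) (b ^ 2), √s ∈ Icc a b := by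
    intro s hs
    constructor
    · exact Real.le_sqrt_of_sq_le hs.1
    · rw [Real.sqrt_le_left hb.le]
      exact hs.2
  constructor
  · intro h
    have h1 := addHaar_image_eq_zero_of_differentiableOn_of_addHaar_eq_zero
      (μ := (volume : Measure ℝ)) (f := fun r : ℝ => r ^ 2)
      (s := {x | ¬(x ∈ Icc a b → f x = (0 : ℝ → ℝ) x)}) (by fun_prop) h
    refine measure_mono_null ?_ h1
    intro s hs
    simp only [mem_ofPred_eq, Classical.not_imp, Pi.zero_apply] at hs
    obtain ⟨hs1, hs2⟩ := hs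
    refine ⟨√s, ?_, ?_⟩
    · simp only [mem_ofPred_eq, Classical.not_imp, Pi.zero_apply]
      exact ⟨hmem s hs1, hs2⟩
    · exact Real.sq_sqrt (le_trans (by positivity) hs1.1)
  · intro h
    have h1 := addHaar_image_eq_zero_of_differentiableOn_of_addHaar_eq_zero
      (μ := (volume : Measure ℝ)) (f := fun s : ℝ => √s)
      (s := {x | ¬(x ∈ Icc (a ^ 2) (b ^ 2) → f (√x) = (0 : ℝ → ℝ) x)}) (by
        intro s hs
        simp only [mem_ofPred_eq, Classical.not_imp, Pi.zero_apply] at hs
        have hs0 : s ≠ 0 := by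
          have := hs.1.1
          have h2 : 0 < a ^ 2 := by positivity
          linarith
        exact (Real.hasDerivAt_sqrt hs0).differentiableAt.differentiableWithinAt) h
    refine measure_mono_null ?_ h1
    intro r hr
    simp only [mem_ofPred_eq, Classical.not_imp, Pi.zero_apply] at hr
    obtain ⟨hr1, hr2⟩ := hr
    have hr0 : 0 < r := lt_of_lt_of_le ha hr1.1
    refine ⟨r ^ 2, ?_, Real.sqrt_sq hr0.le⟩
    simp only [mem_ofPred_eq, Classical.not_imp, Pi.zero_apply]
    refine ⟨⟨?_, ?_⟩, ?_⟩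
    · exact pow_le_pow_left₀ ha.le hr1.1 2
    · exact pow_le_pow_left₀ hr0.le hr1.2 2
    · rw [Real.sqrt_sq hr0.le]
      exact hr2

end Pool.Agent.Q186.CC
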